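import Mathlib

/-!
# MP_9e990c_al: centre and dimension of a crossed product

A division ring `D` with a left `K`-basis `e i` and automorphisms `τ i` of the field `K` which form a finite
group, `e i * k = τ i (k) * e i`: the centre is the fixed field, and the dimension over the centre is the
square of the order of the group.
-/

set_option autoImplicit false

namespace Pool.Agent.PC

/-- A division ring which is a crossed product: left basis `e i` over `K`, with automorphisms `τ i`. -/
structure CPD {D K I : Type*} [DivisionRing D] [Field K] [Fintype I] (ι : K →+* D)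
    (τ : I → K ≃+* K) (e : I → D) (i0 : I) : Prop where
  inj : Function.Injective τ
  one : τ i0 = 1
  e_one : e i0 = 1
  mul_mem : ∀ i j, ∃ k, τ k = τ i * τ j
  comm : ∀ i k, e i * ι k = ι (τ i k) * e i
  basis : ∀ d : D, ∃! c : I → K, d = ∑ i, ι (c i) * e i

namespace CPD

variable {D K I : Type*} [DivisionRing D] [Field K] [Fintype I] {ι : K →+* D}
  {τ : I → K ≃+* K} {e : I → D} {i0 : I}

theorem e_ne (h : CPD ι τ e i0) (i : I) : e i ≠ 0 := by
  classical
  intro h0
  obtain ⟨c, -, hc⟩ := h.basis 0
  have h1 : (fun _ => (0 : K)) = c := hc _ (by simp)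
  have h2 : (Pi.single i (1 : K)) = c := hc _ (by
    show (0 : D) = ∑ j, ι ((Pi.single i (1 : K) : I → K) j) * e j
    rw [Finset.sum_eq_single i]
    · simp [h0]
    · intro j _ hj
      simp [Pi.single_eq_of_ne hj]
    · simp)
  have h3 := congrFun (h1.trans h2.symm) i
  simp at h3

theorem ext_coef (h : CPD ι τ e i0) {c c' : I → K}
    (hc : ∑ i, ι (c i) * e i = ∑ i, ι (c' i) * e i) : c = c' := by
  obtain ⟨b, -, hb⟩ := h.basis (∑ i, ι (c i) * e i)
  rw [hb c rfl, hb c' hc]

theorem mem_center (h : CPD ι τ e i0) (d : D) :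
    d ∈ Subring.center D ↔ ∃ k : K, (∀ i, τ i k = k) ∧ d = ι k := by
  classical
  rw [Subring.mem_center_iff]
  constructor
  · intro hd
    obtain ⟨c, hc, -⟩ := h.basis d
    have h1 : ∀ i, i ≠ i0 → c i = 0 := by
      intro i hi
      by_contra h0
      apply hi
      apply h.inj
      rw [h.one]
      ext k
      have h2 := hd (ι k)
      rw [hc, Finset.mul_sum, Finset.sum_mul] at h2
      have h3 : (fun j => k * c j) = fun j => c j * τ j k := by
        apply h.ext_coef
        convert h2 using 2 with j _ j _
        · rw [map_mul, mul_assoc]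
        · rw [mul_assoc, h.comm, ← mul_assoc, map_mul]
      have h4 : k * c i = c i * τ i k := congrFun h3 i
      rw [mul_comm] at h4
      exact (mul_left_cancel₀ h0 h4).symm
    have h2 : d = ι (c i0) := by
      rw [hc, Finset.sum_eq_single i0]
      · rw [h.e_one, mul_one]
      · intro j _ hj
        rw [h1 j hj, map_zero, zero_mul]
      · simp
    refine ⟨c i0, ?_, h2⟩
    intro i
    have h3 := hd (e i)
    rw [h2, h.comm] at h3
    exact ι.injective (mul_right_cancel₀ (h.e_ne i) h3)
  · rintro ⟨k, hk, rfl⟩ g
    obtain ⟨c, hc, -⟩ := h.basis g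
    rw [hc, Finset.mul_sum, Finset.sum_mul]
    apply Finset.sum_congr rfl
    intro i _
    rw [mul_assoc, h.comm, hk i, ← mul_assoc, ← mul_assoc, ← map_mul, ← map_mul, mul_comm]

/-- The group of the automorphisms. -/
def grp (h : CPD ι τ e i0) : Subgroup (RingAut K) where
  carrier := Set.range τ
  mul_mem' := by
    rintro _ _ ⟨i, rfl⟩ ⟨j, rfl⟩
    obtain ⟨k, hk⟩ := h.mul_mem i j
    exact ⟨k, hk⟩
  one_mem' := ⟨i0, h.one⟩
  inv_mem' := by
    rintro _ ⟨i, rfl⟩
    choose m hm using h.mul_mem i
    have hinj : Function.Injective m := by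
      intro j j' hj
      apply h.inj
      have := hm j
      rw [hj, hm j'] at this
      exact (mul_left_cancel this).symm
    obtain ⟨j, hj⟩ := (Finite.injective_iff_surjective.mp hinj) i0
    have h2 := hm j
    rw [hj, h.one] at h2
    exact ⟨j, (inv_eq_of_mul_eq_one_right h2.symm).symm⟩

theorem card_grp (h : CPD ι τ e i0) : Nat.card h.grp = Fintype.card I := by
  have h1 : Function.Bijective (fun i : I => (⟨τ i, ⟨i, rfl⟩⟩ : h.grp)) := by
    constructor
    · intro i j hij
      exact h.inj (congrArg Subtype.val hij)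
    · rintro ⟨_, ⟨i, rfl⟩⟩
      exact ⟨i, rfl⟩
  rw [← Nat.card_eq_of_bijective _ h1, Nat.card_eq_fintype_card]

/-- The fixed field. -/
def fix (h : CPD ι τ e i0) : Subfield K := FixedPoints.subfield h.grp K

theorem mem_fix (h : CPD ι τ e i0) (k : K) : k ∈ h.fix ↔ ∀ i, τ i k = k := by
  constructor
  · intro hk i
    exact hk (⟨τ i, ⟨i, rfl⟩⟩ : h.grp)
  · rintro hk ⟨_, ⟨i, rfl⟩⟩
    exact hk i

theorem finrank_fix (h : CPD ι τ e i0) : Module.finrank h.fix K = Fintype.card I := by
  classical
  have : Finite h.grp := by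
    apply Set.Finite.subset (Set.finite_range τ)
    rintro _ ⟨i, rfl⟩
    exact ⟨i, rfl⟩
  have : Fintype h.grp := Fintype.ofFinite _
  rw [← h.card_grp, Nat.card_eq_fintype_card]
  exact FixedPoints.finrank_eq_card h.grp K

/-- The left `K`-linear map of the coefficients. -/
theorem finrank_left (h : CPD ι τ e i0) :
    letI : Module K D := Module.compHom D ι
    Module.finrank K D = Fintype.card I := by
  let _ : Module K D := Module.compHom D ι
  let f : (I → K) →ₗ[K] D :=
    { toFun := fun c => ∑ i, ι (c i) * e i
      map_add' := by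
        intro c c'
        rw [← Finset.sum_add_distrib]
        apply Finset.sum_congr rfl
        intro i _
        rw [Pi.add_apply, map_add, add_mul]
      map_smul' := by
        intro k c
        show _ = ι k * _
        rw [Finset.mul_sum]
        apply Finset.sum_congr rfl
        intro i _
        rw [Pi.smul_apply, smul_eq_mul, map_mul, mul_assoc] }
  have hf : Function.Bijective f := by
    constructor
    · intro c c' hc
      exact h.ext_coef hc
    · intro d
      obtain ⟨c, hc, -⟩ := h.basis d
      exact ⟨c, hc.symm⟩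
  rw [← (LinearEquiv.ofBijective f hf).finrank_eq, Module.finrank_fintype_fun_eq_card]

theorem finrank (h : CPD ι τ e i0) :
    Module.finrank (Subring.center D) D = (Fintype.card I) ^ 2 := by
  let _ : Module K D := Module.compHom D ι
  have h1 := Module.finrank_mul_finrank h.fix K D
  rw [h.finrank_fix, h.finrank_left] at h1
  rw [sq, h1]
  let i : h.fix → Subring.center D := fun k =>
    ⟨ι (k : K), (h.mem_center _).mpr ⟨k, (h.mem_fix _).mp k.2, rfl⟩⟩
  have hi : Function.Bijective i := by
    constructor
    · intro a b hab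
      exact Subtype.ext (ι.injective (congrArg Subtype.val hab))
    · rintro ⟨d, hd⟩
      obtain ⟨k, hk, rfl⟩ := (h.mem_center _).mp hd
      exact ⟨⟨k, (h.mem_fix _).mpr hk⟩, rfl⟩
  have h2 := rank_eq_of_equiv_equiv i (AddEquiv.refl D) hi (fun r m => rfl)
  exact (congrArg Cardinal.toNat h2).symm

end CPD

end Pool.Agent.PC
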