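import Pool.Agent.H.MP_9e990c_al.h17.Centre

/-!
# MP_9e990c_al: the crossed product of degree 27

Three commuting automorphisms of order 3 of a field `K`, each of which moves a point fixed by the two
others, and elements `z_j` of a division ring with `z_j * k = s_j (k) * z_j` such that the monomials
`z1 ^ a * z3 ^ b * z2 ^ c` form a left basis over `K`.
-/

set_option autoImplicit false

namespace Pool.Agent.PC

/-- A ring homomorphism of order 3 as an equivalence. -/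
def equiv3 {K : Type*} [Field K] (s : K →+* K) (h : ∀ x, s (s (s x)) = x) : RingAut K :=
  { s with
    invFun := fun x => s (s x)
    left_inv := fun x => h x
    right_inv := fun x => h x }

theorem equiv3_apply {K : Type*} [Field K] (s : K →+* K) (h : ∀ x, s (s (s x)) = x) (x : K) :
    equiv3 s h x = s x := rfl

theorem equiv3_pow {K : Type*} [Field K] (s : K →+* K) (h : ∀ x, s (s (s x)) = x) :
    equiv3 s h ^ 3 = 1 := by
  ext x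
  exact h x

theorem pow_comm_z {D K : Type*} [DivisionRing D] [Field K] (ι : K →+* D) (s : RingAut K) (z : D)
    (h : ∀ k, z * ι k = ι (s k) * z) (n : ℕ) (k : K) : z ^ n * ι k = ι ((s ^ n) k) * z ^ n := by
  induction n generalizing k with
  | zero => simp
  | succ n ih =>
    rw [pow_succ, mul_assoc, h, ← mul_assoc, ih, mul_assoc, pow_succ]
    rfl

theorem pow_fix {K : Type*} [Field K] (s : RingAut K) (x : K) (h : s x = x) (n : ℕ) :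
    (s ^ n) x = x := by
  induction n with
  | zero => rfl
  | succ n ih =>
    rw [pow_succ]
    show (s ^ n) (s x) = x
    rw [h, ih]

theorem pow_inj {K : Type*} [Field K] (s : RingAut K) (h3 : s ^ 3 = 1) (x : K) (h : s x ≠ x)
    (a b : Fin 3) (hab : (s ^ (a : ℕ)) x = (s ^ (b : ℕ)) x) : a = b := by
  have e0 : (s ^ 0) x = x := rfl
  have e1 : (s ^ 1) x = s x := by rw [pow_one]
  have e2 : (s ^ 2) x = s (s x) := by rw [pow_two]; rfl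
  have e3 : s (s (s x)) = x := by
    have := congrArg (fun f : RingAut K => f x) h3
    exact this
  have h2 : s (s x) ≠ x := by
    intro h4
    rw [h4] at e3
    exact h e3
  have h5 : s (s x) ≠ s x := fun h4 => h (s.injective h4)
  fin_cases a <;> fin_cases b <;> simp only [Fin.mk_zero, Fin.mk_one, Fin.reduceFinMk, Fin.isValue] at hab ⊢
  · rw [e0] at hab; rw [e1] at hab; exact absurd hab.symm h
  · rw [e0, e2] at hab; exact absurd hab.symm h2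
  · rw [e1, e0] at hab; exact absurd hab h
  · rw [e1, e2] at hab; exact absurd hab.symm h5
  · rw [e2, e0] at hab; exact absurd hab h2
  · rw [e2, e1] at hab; exact absurd hab h5

theorem pow_fin_add {G : Type*} [Monoid G] (s : G) (h3 : s ^ 3 = 1) (a b : Fin 3) :
    s ^ ((a + b : Fin 3) : ℕ) = s ^ (a : ℕ) * s ^ (b : ℕ) := by
  rw [← pow_add, Fin.val_add, ← pow_eq_pow_mod _ h3]

/-- The crossed product structure of degree 27, coefficients indexed by triples. -/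
theorem cpd27 {D K : Type*} [DivisionRing D] [Field K] (ι : K →+* D) (s1 s2 s3 : K →+* K)
    (o1 : ∀ x, s1 (s1 (s1 x)) = x) (o2 : ∀ x, s2 (s2 (s2 x)) = x) (o3 : ∀ x, s3 (s3 (s3 x)) = x)
    (c12 : ∀ x, s1 (s2 x) = s2 (s1 x)) (c13 : ∀ x, s1 (s3 x) = s3 (s1 x))
    (c23 : ∀ x, s2 (s3 x) = s3 (s2 x)) (x1 x2 x3 : K)
    (h11 : s1 x1 ≠ x1) (h22 : s2 x2 ≠ x2) (h33 : s3 x3 ≠ x3)
    (h21 : s2 x1 = x1) (h23 : s2 x3 = x3) (h31 : s3 x1 = x1) (z1 z2 z3 : D)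
    (m1 : ∀ k, z1 * ι k = ι (s1 k) * z1) (m2 : ∀ k, z2 * ι k = ι (s2 k) * z2)
    (m3 : ∀ k, z3 * ι k = ι (s3 k) * z3)
    (basis : ∀ d : D, ∃! c : Fin 3 × Fin 3 × Fin 3 → K,
      d = ∑ i, ι (c i) * (z1 ^ (i.1 : ℕ) * z3 ^ (i.2.1 : ℕ) * z2 ^ (i.2.2 : ℕ))) :
    CPD ι (fun i : Fin 3 × Fin 3 × Fin 3 =>
        equiv3 s1 o1 ^ (i.1 : ℕ) * equiv3 s3 o3 ^ (i.2.1 : ℕ) * equiv3 s2 o2 ^ (i.2.2 : ℕ))
      (fun i => z1 ^ (i.1 : ℕ) * z3 ^ (i.2.1 : ℕ) * z2 ^ (i.2.2 : ℕ)) (0, 0, 0) := by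
  set S1 := equiv3 s1 o1 with hS1
  set S2 := equiv3 s2 o2 with hS2
  set S3 := equiv3 s3 o3 with hS3
  have p1 : S1 ^ 3 = 1 := equiv3_pow _ _
  have p2 : S2 ^ 3 = 1 := equiv3_pow _ _
  have p3 : S3 ^ 3 = 1 := equiv3_pow _ _
  have k12 : Commute S1 S2 := by ext x; exact c12 x
  have k13 : Commute S1 S3 := by ext x; exact c13 x
  have k23 : Commute S2 S3 := by ext x; exact c23 x
  refine ⟨?_, ?_, ?_, ?_, ?_, ?_⟩
  · rintro ⟨a, b, c⟩ ⟨a', b', c'⟩ h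
    simp only at h
    have q1 := congrArg (fun f : RingAut K => f x1) h
    have q2 := congrArg (fun f : RingAut K => f x2) h
    have q3 := congrArg (fun f : RingAut K => f x3) h
    have t : ∀ (A B C : RingAut K) (x : K), (A * B * C) x = A (B (C x)) := fun _ _ _ _ => rfl
    simp only [t] at q1 q2 q3
    rw [pow_fix S2 x1 h21, pow_fix S2 x1 h21, pow_fix S3 x1 h31, pow_fix S3 x1 h31] at q1
    rw [pow_fix S2 x3 h23, pow_fix S2 x3 h23] at q3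
    have ha : a = a' := pow_inj S1 p1 x1 h11 a a' q1
    subst ha
    have hb : b = b' := pow_inj S3 p3 x3 h33 b b' ((S1 ^ (a : ℕ)).injective q3)
    subst hb
    have hc : c = c' := pow_inj S2 p2 x2 h22 c c'
      ((S3 ^ (b : ℕ)).injective ((S1 ^ (a : ℕ)).injective q2))
    subst hc
    rfl
  · simp
  · simp
  · rintro ⟨a, b, c⟩ ⟨a', b', c'⟩
    refine ⟨(a + a', b + b', c + c'), ?_⟩
    simp only
    rw [pow_fin_add S1 p1, pow_fin_add S2 p2, pow_fin_add S3 p3]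
    have e1 : S2 ^ (c : ℕ) * S1 ^ (a' : ℕ) = S1 ^ (a' : ℕ) * S2 ^ (c : ℕ) :=
      (k12.symm.pow_pow _ _).eq
    have e2 : S3 ^ (b : ℕ) * S1 ^ (a' : ℕ) = S1 ^ (a' : ℕ) * S3 ^ (b : ℕ) :=
      (k13.symm.pow_pow _ _).eq
    have e3 : S2 ^ (c : ℕ) * S3 ^ (b' : ℕ) = S3 ^ (b' : ℕ) * S2 ^ (c : ℕ) :=
      (k23.pow_pow _ _).eq
    calc S1 ^ (a : ℕ) * S1 ^ (a' : ℕ) * (S3 ^ (b : ℕ) * S3 ^ (b' : ℕ)) *
          (S2 ^ (c : ℕ) * S2 ^ (c' : ℕ))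
        = S1 ^ (a : ℕ) * (S1 ^ (a' : ℕ) * S3 ^ (b : ℕ)) * (S3 ^ (b' : ℕ) * S2 ^ (c : ℕ)) *
          S2 ^ (c' : ℕ) := by simp only [mul_assoc]
      _ = S1 ^ (a : ℕ) * (S3 ^ (b : ℕ) * S1 ^ (a' : ℕ)) * (S2 ^ (c : ℕ) * S3 ^ (b' : ℕ)) *
          S2 ^ (c' : ℕ) := by rw [e2, e3]
      _ = S1 ^ (a : ℕ) * S3 ^ (b : ℕ) * (S1 ^ (a' : ℕ) * S2 ^ (c : ℕ)) * S3 ^ (b' : ℕ) *
          S2 ^ (c' : ℕ) := by simp only [mul_assoc]
      _ = S1 ^ (a : ℕ) * S3 ^ (b : ℕ) * (S2 ^ (c : ℕ) * S1 ^ (a' : ℕ)) * S3 ^ (b' : ℕ) *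
          S2 ^ (c' : ℕ) := by rw [e1]
      _ = _ := by simp only [mul_assoc]
  · rintro ⟨a, b, c⟩ k
    show z1 ^ (a : ℕ) * z3 ^ (b : ℕ) * z2 ^ (c : ℕ) * ι k =
      ι ((S1 ^ (a : ℕ)) ((S3 ^ (b : ℕ)) ((S2 ^ (c : ℕ)) k))) * _
    rw [mul_assoc, pow_comm_z ι S2 z2 m2, ← mul_assoc, mul_assoc (z1 ^ (a : ℕ)),
      pow_comm_z ι S3 z3 m3, ← mul_assoc, pow_comm_z ι S1 z1 m1]
    simp only [mul_assoc]
  · exact basis

/-- The dimension over the centre is `27 ^ 2`. -/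
theorem finrank27 {D K : Type*} [DivisionRing D] [Field K] (ι : K →+* D) (s1 s2 s3 : K →+* K)
    (o1 : ∀ x, s1 (s1 (s1 x)) = x) (o2 : ∀ x, s2 (s2 (s2 x)) = x) (o3 : ∀ x, s3 (s3 (s3 x)) = x)
    (c12 : ∀ x, s1 (s2 x) = s2 (s1 x)) (c13 : ∀ x, s1 (s3 x) = s3 (s1 x))
    (c23 : ∀ x, s2 (s3 x) = s3 (s2 x)) (x1 x2 x3 : K)
    (h11 : s1 x1 ≠ x1) (h22 : s2 x2 ≠ x2) (h33 : s3 x3 ≠ x3)
    (h21 : s2 x1 = x1) (h23 : s2 x3 = x3) (h31 : s3 x1 = x1) (z1 z2 z3 : D)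
    (m1 : ∀ k, z1 * ι k = ι (s1 k) * z1) (m2 : ∀ k, z2 * ι k = ι (s2 k) * z2)
    (m3 : ∀ k, z3 * ι k = ι (s3 k) * z3)
    (basis : ∀ d : D, ∃! c : Fin 3 × Fin 3 × Fin 3 → K,
      d = ∑ i, ι (c i) * (z1 ^ (i.1 : ℕ) * z3 ^ (i.2.1 : ℕ) * z2 ^ (i.2.2 : ℕ))) :
    Module.finrank (Subring.center D) D = 27 ^ 2 := by
  have h := (cpd27 ι s1 s2 s3 o1 o2 o3 c12 c13 c23 x1 x2 x3 h11 h22 h33 h21 h23 h31
    z1 z2 z3 m1 m2 m3 basis).finrank
  rw [h]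
  simp

/-- A division ring with positive finite dimension is finite over its centre. -/
theorem finite_of_27 {D : Type*} [DivisionRing D]
    (h : Module.finrank (Subring.center D) D = 27 ^ 2) : Module.Finite (Subring.center D) D :=
  Module.finite_of_finrank_pos (by rw [h]; norm_num)

/-- The centre is the image of the elements fixed by the three automorphisms. -/
theorem mem_center27 {D K : Type*} [DivisionRing D] [Field K] (ι : K →+* D) (s1 s2 s3 : K →+* K)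
    (o1 : ∀ x, s1 (s1 (s1 x)) = x) (o2 : ∀ x, s2 (s2 (s2 x)) = x) (o3 : ∀ x, s3 (s3 (s3 x)) = x)
    (c12 : ∀ x, s1 (s2 x) = s2 (s1 x)) (c13 : ∀ x, s1 (s3 x) = s3 (s1 x))
    (c23 : ∀ x, s2 (s3 x) = s3 (s2 x)) (x1 x2 x3 : K)
    (h11 : s1 x1 ≠ x1) (h22 : s2 x2 ≠ x2) (h33 : s3 x3 ≠ x3)
    (h21 : s2 x1 = x1) (h23 : s2 x3 = x3) (h31 : s3 x1 = x1) (z1 z2 z3 : D)
    (m1 : ∀ k, z1 * ι k = ι (s1 k) * z1) (m2 : ∀ k, z2 * ι k = ι (s2 k) * z2)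
    (m3 : ∀ k, z3 * ι k = ι (s3 k) * z3)
    (basis : ∀ d : D, ∃! c : Fin 3 × Fin 3 × Fin 3 → K,
      d = ∑ i, ι (c i) * (z1 ^ (i.1 : ℕ) * z3 ^ (i.2.1 : ℕ) * z2 ^ (i.2.2 : ℕ))) (d : D) :
    d ∈ Subring.center D ↔ ∃ k : K, s1 k = k ∧ s2 k = k ∧ s3 k = k ∧ d = ι k := by
  have h := (cpd27 ι s1 s2 s3 o1 o2 o3 c12 c13 c23 x1 x2 x3 h11 h22 h33 h21 h23 h31
    z1 z2 z3 m1 m2 m3 basis).mem_center d
  rw [h]
  constructor
  · rintro ⟨k, hk, rfl⟩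
    refine ⟨k, ?_, ?_, ?_, rfl⟩
    · have := hk (1, 0, 0)
      simpa [equiv3_apply] using this
    · have := hk (0, 0, 1)
      simpa [equiv3_apply] using this
    · have := hk (0, 1, 0)
      simpa [equiv3_apply] using this
  · rintro ⟨k, h1, h2, h3, rfl⟩
    refine ⟨k, ?_, rfl⟩
    rintro ⟨a, b, c⟩
    show (equiv3 s1 o1 ^ (a : ℕ)) ((equiv3 s3 o3 ^ (b : ℕ)) ((equiv3 s2 o2 ^ (c : ℕ)) k)) = k
    rw [pow_fix _ k h2, pow_fix _ k h3, pow_fix _ k h1]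

end Pool.Agent.PC
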