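import Mathlib

/-!
# MP_9e990c_al: the cube root of 1, the odd central element, and points moved by the automorphisms
-/

set_option autoImplicit false

namespace Pool.Agent.PC

/-- The cube root of unity in a field with `p ^ 12 = -3`. -/
theorem zeta_prim {K : Type*} [Field K] (p : K) (hp : p ^ 12 = -3) (h2 : (2 : K) ≠ 0)
    (h3 : (3 : K) ≠ 0) : IsPrimitiveRoot ((-1 + p ^ 6) / 2) 3 := by
  set z : K := (-1 + p ^ 6) / 2 with hz
  have e1 : 2 * z = -1 + p ^ 6 := by rw [hz]; field_simp
  have e2 : (2 * z + 1) ^ 2 = -3 := by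
    rw [e1]
    linear_combination hp
  have e3 : z ^ 2 + z + 1 = 0 := by
    have h4 : (4 : K) ≠ 0 := by
      have : (4 : K) = 2 * 2 := by norm_num
      rw [this]
      exact mul_ne_zero h2 h2
    apply mul_left_cancel₀ h4
    linear_combination e2
  have e4 : z ^ 3 = 1 := by linear_combination (z - 1) * e3
  have e5 : z ≠ 1 := by
    intro h
    rw [h] at e3
    apply h3
    linear_combination e3
  have h6 : orderOf z = 3 := orderOf_eq_prime e4 e5
  rw [← h6]
  exact IsPrimitiveRoot.orderOf z

/-- The odd element is moved by the involution. -/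
theorem eta_ne {K : Type*} [Field K] (h2 : (2 : K) ≠ 0) (s : K →+* K) (b : K) (hb : b ≠ 0)
    (hb2 : b ^ 2 ≠ 1) (hs : b * s b = 1) : s (b - b⁻¹) ≠ b - b⁻¹ := by
  have e1 : s b = b⁻¹ := eq_inv_of_mul_eq_one_right hs
  rw [map_sub, map_inv₀, e1, inv_inv]
  intro h
  apply hb2
  have e2 : 2 * (b ^ 2 - 1) = 0 := by
    field_simp at h
    linear_combination (-1 : K) * h
  have e3 := (mul_eq_zero.mp e2).resolve_left h2
  linear_combination e3

/-- The point `x` is moved by the automorphism with `s (x) = (x + p ^ 4) / (1 + p ^ 8 * x)`. -/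
theorem moved {O M : Type*} [CommRing O] [Field M] (red : O →+* M) (p : O)
    (hp : ∀ a, p * a = 0 → a = 0) (hr : red p = 0) (s : O →+* O) (x : O)
    (h : s x * (1 + p ^ 8 * x) = x + p ^ 4) : s x ≠ x := by
  intro hx
  rw [hx] at h
  have e1 : p * (p * (p * (p * (p ^ 4 * x ^ 2 - 1)))) = 0 := by linear_combination h
  have e2 := hp _ (hp _ (hp _ (hp _ e1)))
  have e3 := congrArg red e2
  rw [map_sub, map_mul, map_pow, hr, map_one, map_zero] at e3
  simp at e3

/-- `2` and `3` are not `0` in a ring with `p ^ 12 = -3`. -/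
theorem two_ne {O M : Type*} [CommRing O] [Field M] [CharP M 3] (red : O →+* M) :
    (2 : O) ≠ 0 := by
  intro h
  have e1 := congrArg red h
  rw [map_ofNat, map_zero] at e1
  have e2 : ((2 : ℕ) : M) = 0 := by exact_mod_cast e1
  rw [CharP.cast_eq_zero_iff M 3] at e2
  norm_num at e2

theorem three_ne {O : Type*} [CommRing O] [Nontrivial O] (p : O) (hp : ∀ a, p * a = 0 → a = 0)
    (h12 : p ^ 12 = -3) : (3 : O) ≠ 0 := by
  intro h
  rw [h, neg_zero] at h12
  have hn : ∀ n : ℕ, p ^ n = 0 → False := by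
    intro n
    induction n with
    | zero => intro h0; rw [pow_zero] at h0; exact one_ne_zero h0
    | succ n ih =>
      intro h0
      rw [pow_succ'] at h0
      exact ih (hp _ h0)
  exact hn 12 h12

end Pool.Agent.PC
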