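import Pool.Agent.H.MP_9e990c_al.h17.Deg27
import Pool.Agent.H.MP_9e990c_al.h17.Wit
import Pool.Agent.H.MP_9e990c_al.h32.Descent2

/-!
# MP_9e990c_al: the end of the proof, over an abstract field and an abstract ring
-/

set_option autoImplicit false

namespace Pool.Agent.PC

open Pool.Agent.H.MP_9e990c_al.Desc2

/-- The final statement from the crossed product `A` of degree 27 over the field `K`. -/
theorem endgame {K A : Type} [Field K] [Ring A] [Nontrivial A]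
    (hu : ∀ x : A, x ≠ 0 → IsUnit x) (ι : K →+* A) (s1 s2 s3 sg : K →+* K)
    (o1 : ∀ x, s1 (s1 (s1 x)) = x) (o2 : ∀ x, s2 (s2 (s2 x)) = x) (o3 : ∀ x, s3 (s3 (s3 x)) = x)
    (c12 : ∀ x, s1 (s2 x) = s2 (s1 x)) (c13 : ∀ x, s1 (s3 x) = s3 (s1 x))
    (c23 : ∀ x, s2 (s3 x) = s3 (s2 x))
    (x1 x2 x3 : K)
    (h11 : s1 x1 ≠ x1) (h22 : s2 x2 ≠ x2) (h33 : s3 x3 ≠ x3)
    (h21 : s2 x1 = x1) (h23 : s2 x3 = x3) (h31 : s3 x1 = x1)
    (p b : K) (hp : p ^ 12 = -3) (h2 : (2 : K) ≠ 0) (h3 : (3 : K) ≠ 0)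
    (p1 : s1 p = p) (p2 : s2 p = p) (p3 : s3 p = p) (pg : sg p = p)
    (b1 : s1 b = b) (b2 : s2 b = b) (b3 : s3 b = b) (bg : b * sg b = 1) (hb2 : b ^ 2 ≠ 1)
    (z1 z2 z3 : A)
    (m1 : ∀ k, z1 * ι k = ι (s1 k) * z1) (m2 : ∀ k, z2 * ι k = ι (s2 k) * z2)
    (m3 : ∀ k, z3 * ι k = ι (s3 k) * z3)
    (basis : ∀ d : A, ∃! c : Fin 3 × Fin 3 × Fin 3 → K,
      d = ∑ i, ι (c i) * (z1 ^ (i.1 : ℕ) * z3 ^ (i.2.1 : ℕ) * z2 ^ (i.2.2 : ℕ)))
    (sigma : A →+* A) (hsig : ∀ x, sigma (sigma x) = x) (sigι : ∀ k, sigma (ι k) = ι (sg k))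
    (main : ∀ z : A, sigma z = z → z ^ 3 ∈ Subring.center A → z ∈ Subring.center A) :
    ∃ (F : Type) (_ : Field F) (D : Type) (_ : DivisionRing D) (_ : Algebra F D),
      (∃ ζ : F, IsPrimitiveRoot ζ 3) ∧ Algebra.IsCentral F D ∧ Module.finrank F D = 27 ^ 2 ∧
      ∀ x : D, x ^ 3 ∈ (algebraMap F D).range → x ∈ (algebraMap F D).range := by
  classical
  let dA : DivisionRing A := DivisionRing.ofIsUnitOrEqZero (fun x => by
    by_cases h : x = 0
    · exact Or.inr h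
    · exact Or.inl (hu x h))
  have hfr : Module.finrank (Subring.center A) A = 27 ^ 2 :=
    finrank27 ι s1 s2 s3 o1 o2 o3 c12 c13 c23 x1 x2 x3 h11 h22 h33 h21 h23 h31 z1 z2 z3 m1 m2 m3
      basis
  have hcen : ∀ d : A, d ∈ Subring.center A ↔ ∃ k, s1 k = k ∧ s2 k = k ∧ s3 k = k ∧ d = ι k :=
    mem_center27 ι s1 s2 s3 o1 o2 o3 c12 c13 c23 x1 x2 x3 h11 h22 h33 h21 h23 h31
      z1 z2 z3 m1 m2 m3 basis
  have hfin : Module.Finite (Subring.center A) A :=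
    Module.finite_of_finrank_pos (by rw [hfr]; norm_num)
  have hb0 : b ≠ 0 := by
    rintro rfl
    rw [zero_mul] at bg
    exact zero_ne_one bg
  let sE : A ≃+* A :=
    { sigma with
      invFun := sigma
      left_inv := hsig
      right_inv := hsig }
  have sEa : ∀ x, sE x = sigma x := fun x => rfl
  have hηc : ι (b - b⁻¹) ∈ Subring.center A := by
    rw [hcen]
    exact ⟨b - b⁻¹, by rw [map_sub, map_inv₀, b1], by rw [map_sub, map_inv₀, b2],
      by rw [map_sub, map_inv₀, b3], rfl⟩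
  have I : Inv sE (ι (b - b⁻¹)) :=
    { hs := hsig
      hη := fun x => (Subring.mem_center_iff.mp hηc x).symm
      hsη := by
        rw [sEa, sigι]
        intro h
        exact eta_ne h2 sg b hb0 hb2 bg (ι.injective h) }
  have hz : IsPrimitiveRoot ((-1 + p ^ 6) / 2 : K) 3 := zeta_prim p hp h2 h3
  refine I.final (p := 3) hfr (ι ((-1 + p ^ 6) / 2)) ?_ ?_ ?_ ?_ ?_
  · rw [← map_pow, hz.pow_eq_one, map_one]
  · intro l hl
    apply hz.dvd_of_pow_eq_one l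
    apply ι.injective
    rw [map_pow, hl, map_one]
  · rw [hcen]
    refine ⟨(-1 + p ^ 6) / 2, ?_, ?_, ?_, rfl⟩
    · rw [map_div₀, map_add, map_neg, map_one, map_pow, p1, map_ofNat]
    · rw [map_div₀, map_add, map_neg, map_one, map_pow, p2, map_ofNat]
    · rw [map_div₀, map_add, map_neg, map_one, map_pow, p3, map_ofNat]
  · rw [sEa, sigι, map_div₀, map_add, map_neg, map_one, map_pow, pg, map_ofNat]
  · intro z hz1 hz2
    exact main z hz1 hz2

end Pool.Agent.PC
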