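import Pool.Agent.H.MP_9e990c_al.h70.Frac
import Pool.Agent.H.MP_9e990c_al.h79.Alg

/-! Extension of the data `AlgData O` to the fraction field of the domain `O`. -/

set_option autoImplicit false

namespace Pool.Agent.H.MP_9e990c_al

open Pool.Agent.H.MP_9e990c_al.h70

namespace AlgFrac

variable {O : Type*} [CommRing O] [IsDomain O]

theorem inj_of3 {K : Type*} [CommRing K] (s : K →+* K) (h : ∀ x, s (s (s x)) = x) :
    Function.Injective s := fun x y hxy => by rw [← h x, hxy, h y]

theorem inj_of2 {K : Type*} [CommRing K] (s : K →+* K) (h : ∀ x, s (s x) = x) :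
    Function.Injective s := fun x y hxy => by rw [← h x, hxy, h y]

theorem fr22 {f g f' g' : O →+* O} (hf : Function.Injective f) (hg : Function.Injective g)
    (hf' : Function.Injective f') (hg' : Function.Injective g') (h : ∀ x, f (g x) = f' (g' x))
    (x : FractionRing O) : frMap f hf (frMap g hg x) = frMap f' hf' (frMap g' hg' x) :=
  frac_hom_ext' (g := (frMap f hf).comp (frMap g hg)) (h := (frMap f' hf').comp (frMap g' hg'))
    (fun r => by simp only [RingHom.comp_apply, frMap_alg, h]) x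

theorem fr3 {f : O →+* O} (hf : Function.Injective f) (h : ∀ x, f (f (f x)) = x)
    (x : FractionRing O) : frMap f hf (frMap f hf (frMap f hf x)) = x :=
  frac_hom_ext' (g := (frMap f hf).comp ((frMap f hf).comp (frMap f hf))) (h := RingHom.id _)
    (fun r => by simp only [RingHom.comp_apply, frMap_alg, h, RingHom.id_apply]) x

theorem fr2 {f : O →+* O} (hf : Function.Injective f) (h : ∀ x, f (f x) = x)
    (x : FractionRing O) : frMap f hf (frMap f hf x) = x :=
  frac_hom_ext' (g := (frMap f hf).comp (frMap f hf)) (h := RingHom.id _)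
    (fun r => by simp only [RingHom.comp_apply, frMap_alg, h, RingHom.id_apply]) x

theorem fr23 {f g : O →+* O} (hf : Function.Injective f) (hg : Function.Injective g)
    (h : ∀ x, g (f x) = f (f (g x)))
    (x : FractionRing O) : frMap g hg (frMap f hf x) = frMap f hf (frMap f hf (frMap g hg x)) :=
  frac_hom_ext' (g := (frMap g hg).comp (frMap f hf))
    (h := (frMap f hf).comp ((frMap f hf).comp (frMap g hg)))
    (fun r => by simp only [RingHom.comp_apply, frMap_alg, h]) x

end AlgFrac

open AlgFrac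

namespace AlgData

variable {O : Type*} [CommRing O] [IsDomain O]

/-- Extension of the data to the fraction field. -/
noncomputable def frac (D : AlgData O) : AlgData (FractionRing O) where
  s1 := frMap D.s1 (inj_of3 _ D.c1)
  s2 := frMap D.s2 (inj_of3 _ D.c2)
  s3 := frMap D.s3 (inj_of3 _ D.c3)
  sg := frMap D.sg (inj_of2 _ D.sgsg)
  u1 := algebraMap O _ D.u1
  u3 := algebraMap O _ D.u3
  v1 := algebraMap O _ D.v1
  v3 := algebraMap O _ D.v3
  a1 := algebraMap O _ D.a1
  a2 := algebraMap O _ D.a2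
  a3 := algebraMap O _ D.a3
  s12 := fr22 _ _ _ _ D.s12
  s13 := fr22 _ _ _ _ D.s13
  s32 := fr22 _ _ _ _ D.s32
  c1 := fr3 _ D.c1
  c2 := fr3 _ D.c2
  c3 := fr3 _ D.c3
  sgsg := fr2 _ D.sgsg
  sg1 := fr23 _ _ D.sg1
  sg2 := fr23 _ _ D.sg2
  sg3 := fr23 _ _ D.sg3
  s1a1 := by rw [frMap_alg, D.s1a1]
  s3a1 := by rw [frMap_alg, D.s3a1]
  s1a3 := by rw [frMap_alg, D.s1a3]
  s3a3 := by rw [frMap_alg, D.s3a3]
  s2a2 := by rw [frMap_alg, D.s2a2]
  n1 := by simp only [frMap_alg, ← map_mul, D.n1]
  n3 := by simp only [frMap_alg, ← map_mul, D.n3]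
  m1 := by simp only [frMap_alg, ← map_mul, ← D.m1]
  m3 := by simp only [frMap_alg, ← map_mul, ← D.m3]
  s3u1 := by rw [frMap_alg, D.s3u1]
  s1u3 := by rw [frMap_alg, D.s1u3]
  sgu1 := by simp only [frMap_alg, D.sgu1]
  sgu3 := by simp only [frMap_alg, D.sgu3]
  a1sg := by rw [frMap_alg, ← map_mul, D.a1sg, map_one]
  a2sg := by rw [frMap_alg, ← map_mul, D.a2sg, map_one]
  a3sg := by rw [frMap_alg, ← map_mul, D.a3sg, map_one]
  v1u1 := by rw [← map_mul, D.v1u1, map_one]
  v3u3 := by rw [← map_mul, D.v3u3, map_one]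

variable (D : AlgData O)

@[simp] theorem frac_s1 (x : O) : D.frac.s1 (algebraMap O (FractionRing O) x) =
    algebraMap O (FractionRing O) (D.s1 x) := frMap_alg _ (inj_of3 _ D.c1) _

@[simp] theorem frac_s2 (x : O) : D.frac.s2 (algebraMap O (FractionRing O) x) =
    algebraMap O (FractionRing O) (D.s2 x) := frMap_alg _ (inj_of3 _ D.c2) _

@[simp] theorem frac_s3 (x : O) : D.frac.s3 (algebraMap O (FractionRing O) x) =
    algebraMap O (FractionRing O) (D.s3 x) := frMap_alg _ (inj_of3 _ D.c3) _

@[simp] theorem frac_sg (x : O) : D.frac.sg (algebraMap O (FractionRing O) x) =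
    algebraMap O (FractionRing O) (D.sg x) := frMap_alg _ (inj_of2 _ D.sgsg) _

@[simp] theorem frac_u1 : D.frac.u1 = algebraMap O (FractionRing O) D.u1 := rfl
@[simp] theorem frac_u3 : D.frac.u3 = algebraMap O (FractionRing O) D.u3 := rfl
@[simp] theorem frac_v1 : D.frac.v1 = algebraMap O (FractionRing O) D.v1 := rfl
@[simp] theorem frac_v3 : D.frac.v3 = algebraMap O (FractionRing O) D.v3 := rfl
@[simp] theorem frac_a1 : D.frac.a1 = algebraMap O (FractionRing O) D.a1 := rfl
@[simp] theorem frac_a2 : D.frac.a2 = algebraMap O (FractionRing O) D.a2 := rfl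
@[simp] theorem frac_a3 : D.frac.a3 = algebraMap O (FractionRing O) D.a3 := rfl

end AlgData

end Pool.Agent.H.MP_9e990c_al
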